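import Pool.Agent.Helper70.ML.St3

/-!
# Project ML (MP_a2f62e_al), module PNHK: the monomial group meets the kernel trivially
-/

set_option autoImplicit false

namespace Pool.Agent.Helper13.ML

open Pool.Agent.Helper70.ML Pool.Agent.Helper75.MX

theorem hPNHK (hPMON : StPMON) (hPTHK : StPTHK) (hPMOO : StPMOO) : StPNHK := by
  intro n F _ E _ _ φ X hn hC hW hT
  obtain ⟨m1, m2, -, m4, m5, -, -, -⟩ := hPMON n F
  -- the subgroup of monomial elements
  let M : Subgroup E :=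
    { carrier := {g | ∃ σ c, Mono (φ g) σ c}
      one_mem' := ⟨1, fun _ => 1, by rw [map_one]; exact m5⟩
      mul_mem' := by
        rintro g h ⟨σ, c, hg⟩ ⟨τ, d, hh⟩
        exact ⟨σ * τ, _, by rw [map_mul]; exact m1 _ _ _ _ _ _ hg hh⟩
      inv_mem' := by
        rintro g ⟨σ, c, hg⟩
        exact ⟨σ⁻¹, _, by rw [map_inv]; exact m2 _ _ _ hg⟩ }
  have memM : ∀ g : E, g ∈ M ↔ ∃ σ c, Mono (φ g) σ c := fun g => Iff.rfl
  -- the torus is normalised by `M`
  have hThn : ∀ g ∈ M, ∀ x ∈ Th X, g * x * g⁻¹ ∈ Th X := by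
    rintro g ⟨σ, c, hg⟩ x hx
    refine Subgroup.closure_induction (p := fun x _ => g * x * g⁻¹ ∈ Th X) ?_ ?_ ?_ ?_ hx
    · rintro y ⟨i, j, a, hij, ha, rfl⟩
      rw [hT.heqv g σ c hg i j a hij ha]
      exact Subgroup.subset_closure ⟨σ i, σ j, a, fun h => hij (σ.injective h), ha, rfl⟩
    · simp [(Th X).one_mem]
    · intro y z _ _ hy hz
      have : g * (y * z) * g⁻¹ = (g * y * g⁻¹) * (g * z * g⁻¹) := by group
      rw [this]
      exact (Th X).mul_mem hy hz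
    · intro y _ hy
      have : g * y⁻¹ * g⁻¹ = (g * y * g⁻¹)⁻¹ := by group
      rw [this]
      exact (Th X).inv_mem hy
  let T : Subgroup M := (Th X).subgroupOf M
  have hTn : T.Normal := by
    refine ⟨fun x hx g => ?_⟩
    exact hThn g.1 g.2 x.1 hx
  have memT : ∀ x : M, x ∈ T ↔ x.1 ∈ Th X := fun x => Iff.rfl
  -- monomial elements in `M`
  have hWM : ∀ i j a, i ≠ j → a ≠ 0 → Wr X i j a ∈ M := fun i j a hij ha => ⟨_, _, hW.wmono i j a hij ha⟩
  have hHM : ∀ i j a, i ≠ j → a ≠ 0 → Hr X i j a ∈ M := fun i j a hij ha => ⟨_, _, hW.hmono i j a hij ha⟩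
  have hHT : ∀ i j a, i ≠ j → a ≠ 0 → Hr X i j a ∈ Th X := fun i j a hij ha =>
    Subgroup.subset_closure ⟨i, j, a, hij, ha, rfl⟩
  have h1 : (1 : F) ≠ 0 := one_ne_zero
  have h1' : (-1 : F) ≠ 0 := neg_ne_zero.mpr h1
  -- the class of `Wr X i j a` does not depend on `a`
  have hcl : ∀ i j a (hij : i ≠ j) (ha : a ≠ 0),
      (QuotientGroup.mk (⟨Wr X i j a, hWM i j a hij ha⟩ : M) : M ⧸ T) =
        QuotientGroup.mk (⟨Wr X i j 1, hWM i j 1 hij h1⟩ : M) := by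
    intro i j a hij ha
    have e : (⟨Wr X i j a, hWM i j a hij ha⟩ : M) =
        ⟨Hr X i j a, hHM i j a hij ha⟩ * ⟨Wr X i j 1, hWM i j 1 hij h1⟩ := by
      apply Subtype.ext
      show Wr X i j a = Hr X i j a * Wr X i j 1
      unfold Hr
      group
    rw [e, QuotientGroup.mk_mul]
    have : (QuotientGroup.mk (⟨Hr X i j a, hHM i j a hij ha⟩ : M) : M ⧸ T) = 1 :=
      (QuotientGroup.eq_one_iff _).mpr (hHT i j a hij ha)
    rw [this, one_mul]
  let s : Fin n → Fin n → M ⧸ T := fun i j =>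
    if h : i ≠ j then QuotientGroup.mk (⟨Wr X i j 1, hWM i j 1 h h1⟩ : M) else 1
  have hs : ∀ i j (h : i ≠ j), s i j = QuotientGroup.mk (⟨Wr X i j 1, hWM i j 1 h h1⟩ : M) :=
    fun i j h => dif_pos h
  have hs0 : ∀ i, s i i = 1 := fun i => dif_neg (by simp)
  have hinv1 : ∀ i j (h : i ≠ j), Wr X i j (-1) = (Wr X i j 1)⁻¹ := fun i j h => hW.winv i j 1 h h1
  have hsq : ∀ i j, s i j * s i j = 1 := by
    intro i j
    by_cases h : i = j
    · subst h
      rw [hs0, one_mul]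
    · rw [hs i j h, ← QuotientGroup.mk_mul]
      refine (QuotientGroup.eq_one_iff _).mpr ?_
      show Wr X i j 1 * Wr X i j 1 ∈ Th X
      have e : Wr X i j 1 * Wr X i j 1 = (Hr X i j (-1))⁻¹ := by
        unfold Hr
        rw [hinv1 i j h, mul_inv_rev, inv_inv]
      rw [e]
      exact (Th X).inv_mem (hHT i j (-1) h h1')
  have hsi : ∀ i j, (s i j)⁻¹ = s i j := fun i j => inv_eq_of_mul_eq_one_left (hsq i j)
  have hsym : ∀ i j, s i j = s j i := by
    intro i j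
    by_cases h : i = j
    · subst h; rfl
    · have h' : j ≠ i := fun e => h e.symm
      rw [← hsi j i, hs i j h, hs j i h', ← QuotientGroup.mk_inv]
      congr 1
      apply Subtype.ext
      show Wr X i j 1 = (Wr X j i 1)⁻¹
      have e := hW.wsym i j 1 h h1
      rw [inv_one, hinv1 i j h] at e
      rw [e, inv_inv]
  have hcj : ∀ i j k l, s i j * s k l * s i j = s (Equiv.swap i j k) (Equiv.swap i j l) := by
    intro i j k l
    by_cases hkl : k = l
    · subst hkl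
      rw [hs0, hs0, mul_one, hsq]
    by_cases hij : i = j
    · subst hij
      rw [hs0]
      simp
    have hne : Equiv.swap i j k ≠ Equiv.swap i j l := fun e => hkl ((Equiv.swap i j).injective e)
    have hmono := hW.wmono i j 1 hij h1
    have hc : ∀ m, wc i j (1 : F) m ≠ 0 := hmono.1
    have hl : wc i j (1 : F) k * (wc i j (1 : F) l)⁻¹ * 1 ≠ 0 :=
      mul_ne_zero (mul_ne_zero (hc k) (inv_ne_zero (hc l))) h1
    have e := hW.weqv (Wr X i j 1) _ _ hmono k l 1 hkl h1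
    nth_rewrite 2 [← hsi i j]
    rw [hs _ _ hne, hs i j hij, hs k l hkl, ← QuotientGroup.mk_inv, ← QuotientGroup.mk_mul,
      ← QuotientGroup.mk_mul, ← hcl _ _ _ hne hl]
    congr 1
    apply Subtype.ext
    exact e
  obtain ⟨Θ, hΘ⟩ := hPMOO n (M ⧸ T) s hs0 hsym hsq hcj
  -- the classes of the elements of `Nh X`
  have key : ∀ x ∈ Nh X, ∃ hM : x ∈ M, ∃ σ c, Mono (φ x) σ c ∧
      (QuotientGroup.mk (⟨x, hM⟩ : M) : M ⧸ T) = Θ σ := by
    intro x hx
    refine Subgroup.closure_induction (p := fun x _ => ∃ hM : x ∈ M, ∃ σ c, Mono (φ x) σ c ∧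
      (QuotientGroup.mk (⟨x, hM⟩ : M) : M ⧸ T) = Θ σ) ?_ ?_ ?_ ?_ hx
    · rintro y ⟨i, j, hij, ⟨a, ha, rfl⟩ | rfl⟩
      · refine ⟨hHM i j a hij ha, 1, _, hW.hmono i j a hij ha, ?_⟩
        rw [map_one]
        exact (QuotientGroup.eq_one_iff _).mpr (hHT i j a hij ha)
      · refine ⟨hWM i j 1 hij h1, Equiv.swap i j, _, hW.wmono i j 1 hij h1, ?_⟩
        rw [hΘ, hs i j hij]
    · refine ⟨M.one_mem, 1, fun _ => 1, by rw [map_one]; exact m5, ?_⟩
      rw [map_one]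
      rfl
    · rintro y z _ _ ⟨hy, σ, c, hc, ey⟩ ⟨hz, τ, d, hd, ez⟩
      refine ⟨M.mul_mem hy hz, σ * τ, _, by rw [map_mul]; exact m1 _ _ _ _ _ _ hc hd, ?_⟩
      rw [map_mul, ← ey, ← ez]
      rfl
    · rintro y _ ⟨hy, σ, c, hc, ey⟩
      refine ⟨M.inv_mem hy, σ⁻¹, _, by rw [map_inv]; exact m2 _ _ _ hc, ?_⟩
      rw [map_inv, ← ey]
      rfl
  refine ⟨fun x hx hx1 => ?_, fun x hx => ?_⟩
  · obtain ⟨hM, σ, c, hc, e⟩ := key x hx
    rw [hx1] at hc
    have hσ : σ = 1 := (m4 _ _ _ _ _ hc m5).1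
    rw [hσ, map_one] at e
    have e' : x ∈ Th X := (QuotientGroup.eq_one_iff (⟨x, hM⟩ : M)).mp e
    exact hPTHK n F E φ X hn hC hW hT x e' hx1
  · obtain ⟨-, σ, c, hc, -⟩ := key x hx
    exact ⟨σ, c, hc⟩

end Pool.Agent.Helper13.ML
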